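import Mathlib
import Pool.Agent.Results.MP_e0e877_co.PaletteMonotone

/-!
# Game domatic numbers of disjoint unions

The definitions (`Position`, `AllDominating`, `AliceWinsFrom`, `AliceWins`, `gameDomaticNumber`) are
those of the file `Pool.Agent.Results.MP_e0e877_co.PaletteMonotone`.

Both `K_3` and `K_{3,3}` have game domatic number 2 and delayed game domatic number 2. But
`K_2 ∪ K_3` has game domatic number 2 and delayed game domatic number 1, while `K_2 ∪ K_{3,3}` has
game domatic number 1 and delayed game domatic number 2. So neither of the two numbers of a disjoint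
union is a function of the four numbers of the two parts.
-/

set_option autoImplicit false
set_option linter.unusedSectionVars false

namespace Pool.Agent.Results.MP_2ce84e_co.NoFormula

open Pool.Agent.Results.MP_e0e877_co.PaletteMonotone

section general

variable {V : Type} [DecidableEq V] [Fintype V]

/-- the number of vertices not yet coloured -/
def unc {k : ℕ} (p : Position V k) : ℕ := (Finset.univ.filter (fun v => p v = none)).card

lemma unc_update {k : ℕ} (p : Position V k) (v : V) (c : Fin k) (hv : p v = none) :
    unc (Function.update p v (some c)) + 1 = unc p := by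
  have : Finset.univ.filter (fun w => Function.update p v (some c) w = none) =
      (Finset.univ.filter (fun w => p w = none)).erase v := by
    ext w
    by_cases h : w = v
    · subst h; simp
    · simp [h]
  unfold unc
  rw [this, Finset.card_erase_of_mem (by simp [hv])]
  have : 0 < (Finset.univ.filter (fun w => p w = none)).card :=
    Finset.card_pos.2 ⟨v, by simp [hv]⟩
  omega

lemma unc_zero {k : ℕ} (p : Position V k) : unc p = 0 ↔ ∀ v, p v ≠ none := by
  unfold unc
  rw [Finset.card_eq_zero, Finset.filter_eq_empty_iff]
  simp

/-- exhaustive search of the game tree; `n` is the number of vertices not yet coloured -/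
def solve {k : ℕ} (H : SimpleGraph V) [DecidableRel H.Adj] : ℕ → Bool → Position V k → Bool
  | 0, _, p => decide (∀ (c : Fin k) (x : V), ∃ y, (y = x ∨ H.Adj x y) ∧ p y = some c)
  | n + 1, true, p => decide (∃ (v : V) (c : Fin k), p v = none ∧
      solve H n false (Function.update p v (some c)) = true)
  | n + 1, false, p => decide (∀ (v : V) (c : Fin k), p v = none →
      solve H n true (Function.update p v (some c)) = true)

lemma solve_iff {k : ℕ} (H : SimpleGraph V) [DecidableRel H.Adj] :
    ∀ (n : ℕ) (b : Bool) (p : Position V k), unc p = n →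
      (solve H n b p = true ↔ AliceWinsFrom H b p) := by
  intro n
  induction n with
  | zero =>
    intro b p hp
    rw [unc_zero] at hp
    have h1 : solve H 0 b p = true ↔ AllDominating H p := by
      cases b <;> simp [solve, AllDominating]
    rw [h1]
    constructor
    · exact fun h => .finished b p hp h
    · intro h
      cases h with
      | finished _ _ _ h => exact h
      | alice _ v _ hv _ => exact absurd hv (hp v)
      | bob _ hopen _ => obtain ⟨v, hv⟩ := hopen; exact absurd hv (hp v)
  | succ n ih =>
    intro b p hp
    have hne : ∃ v, p v = none := by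
      by_contra h
      push Not at h
      rw [(unc_zero p).2 h] at hp
      omega
    cases b with
    | true =>
      simp only [solve, decide_eq_true_eq]
      constructor
      · rintro ⟨v, c, hv, h⟩
        refine .alice p v c hv ((ih false _ ?_).1 h)
        have := unc_update p v c hv
        omega
      · intro h
        cases h with
        | finished _ _ hfull _ => obtain ⟨v, hv⟩ := hne; exact absurd hv (hfull v)
        | alice _ v c hv h =>
          refine ⟨v, c, hv, (ih false _ ?_).2 h⟩
          have := unc_update p v c hv
          omega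
    | false =>
      simp only [solve, decide_eq_true_eq]
      constructor
      · intro h
        refine .bob p hne (fun v c hv => (ih true _ ?_).1 (h v c hv))
        have := unc_update p v c hv
        omega
      · intro h v c hv
        cases h with
        | finished _ _ hfull _ => exact absurd hv (hfull v)
        | bob _ _ h =>
          refine (ih true _ ?_).2 (h v c hv)
          have := unc_update p v c hv
          omega

lemma wins_iff_solve {k : ℕ} (H : SimpleGraph V) [DecidableRel H.Adj] (b : Bool) :
    AliceWins H b k ↔ solve H (Fintype.card V) b (fun _ => none : Position V k) = true := by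
  unfold AliceWins
  rw [solve_iff]
  simp [unc, Finset.card_univ]

/-- Alice wins the B-game with two colours if there is a perfect matching. -/
lemma wins_matching (H : SimpleGraph V) (m : V → V) (hm : ∀ v, m (m v) = v)
    (ha : ∀ v, H.Adj v (m v)) : AliceWins H false 2 := by
  have hex' : ∀ c : Fin 2, ∃ d : Fin 2, d ≠ c := by decide
  have key : ∀ (n : ℕ) (p : Position V 2), unc p = n →
      (∀ v, (p v = none ↔ p (m v) = none) ∧ (p v ≠ none → p v ≠ p (m v))) →
      AliceWinsFrom H false p := by
    intro n
    induction n using Nat.strong_induction_on with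
    | _ n ih =>
    intro p hp hJ
    by_cases hfull : ∀ v, p v ≠ none
    · refine .finished false p hfull (fun c x => ?_)
      have h1 := (hJ x).2 (hfull x)
      obtain ⟨d, hd⟩ := Option.ne_none_iff_exists'.mp (hfull x)
      obtain ⟨e, he⟩ := Option.ne_none_iff_exists'.mp (hfull (m x))
      rw [hd, he] at h1
      by_cases hcd : d = c
      · exact ⟨x, Or.inl rfl, by rw [hd, hcd]⟩
      · refine ⟨m x, Or.inr (ha x), ?_⟩
        rw [he]
        have : d ≠ e := fun h => h1 (by rw [h])
        congr 1
        omega
    · push Not at hfull
      refine .bob p hfull (fun v c hv => ?_)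
      have hmv : p (m v) = none := (hJ v).1.1 hv
      have hne : m v ≠ v := fun h => (ha v).ne h.symm
      have hmv' : Function.update p v (some c) (m v) = none := by
        rw [Function.update_of_ne hne]; exact hmv
      obtain ⟨d, hd⟩ := hex' c
      refine .alice _ (m v) d hmv' ?_
      have u1 := unc_update p v c hv
      have u2 := unc_update _ (m v) d hmv'
      refine ih _ (by omega) _ rfl (fun w => ?_)
      by_cases h1 : w = v
      · subst h1
        rw [Function.update_of_ne hne.symm, Function.update_self, Function.update_self]
        refine ⟨by simp, fun _ h => hd ?_⟩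
        exact (Option.some_injective _ h).symm
      · by_cases h2 : w = m v
        · subst h2
          rw [hm, Function.update_self, Function.update_of_ne hne.symm, Function.update_self]
          refine ⟨by simp, fun _ h => hd ?_⟩
          exact Option.some_injective _ h
        · have h3 : m w ≠ v := fun h => h2 (by rw [← h, hm])
          have h4 : m w ≠ m v := fun h => h1 (by rw [← hm w, h, hm])
          rw [Function.update_of_ne h2, Function.update_of_ne h1, Function.update_of_ne h4,
            Function.update_of_ne h3]
          exact hJ w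
  exact key _ _ rfl (fun v => ⟨by simp, fun h => absurd rfl h⟩)

/-- With a palette of `k` colours Alice can only win if every closed neighbourhood has at least `k`
elements. -/
lemma le_closed {k : ℕ} (hk : 1 ≤ k) (H : SimpleGraph V) (b : Bool) (h : AliceWins H b k)
    (x : V) (N : Finset V) (hN : ∀ y, y = x ∨ H.Adj x y → y ∈ N) : k ≤ N.card := by
  obtain ⟨q, hq⟩ := exists_final hk H b _ h
  choose f hf using fun c : Fin k => hq c x
  have hinj : Function.Injective f := by
    intro c d hcd
    have h1 := (hf c).2
    have h2 := (hf d).2
    rw [hcd, h2] at h1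
    exact (Option.some_injective _ h1).symm
  have : (Finset.univ.image f).card ≤ N.card :=
    Finset.card_le_card (fun y hy => by
      rw [Finset.mem_image] at hy
      obtain ⟨c, _, rfl⟩ := hy
      exact hN _ (hf c).1)
  rwa [Finset.card_image_of_injective _ hinj, Finset.card_univ, Fintype.card_fin] at this

/-- If `a` has the only neighbour `b` and the number of the other vertices is even, then Bob wins
the A-game with at least two colours. -/
lemma bob_wins_even {k : ℕ} (hk : 2 ≤ k) (H : SimpleGraph V) (a b : V) (hab : a ≠ b)
    (ha : ∀ y, H.Adj a y → y = b)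
    (heven : Even (Finset.univ.filter (fun v : V => v ≠ a ∧ v ≠ b)).card) :
    ¬ AliceWins H true k := by
  let U : Position V k → ℕ := fun p =>
    (Finset.univ.filter (fun v => v ≠ a ∧ v ≠ b ∧ p v = none)).card
  have hU : ∀ (p : Position V k) (v : V) (c : Fin k), v ≠ a → v ≠ b → p v = none →
      U (Function.update p v (some c)) + 1 = U p := by
    intro p v c h1 h2 hv
    have e : Finset.univ.filter (fun w => w ≠ a ∧ w ≠ b ∧ Function.update p v (some c) w = none) =
        (Finset.univ.filter (fun w => w ≠ a ∧ w ≠ b ∧ p w = none)).erase v := by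
      ext w
      by_cases h : w = v
      · subst h; simp
      · simp [h]
    show (Finset.univ.filter _).card + 1 = (Finset.univ.filter _).card
    rw [e, Finset.card_erase_of_mem (by simp [hv, h1, h2])]
    have : 0 < (Finset.univ.filter (fun w => w ≠ a ∧ w ≠ b ∧ p w = none)).card :=
      Finset.card_pos.2 ⟨v, by simp [hv, h1, h2]⟩
    omega
  have key : ∀ (t : Bool) (p : Position V k), AliceWinsFrom H t p →
      ((p a ≠ none ∧ p a = p b) ∨
        (p a = none ∧ p b = none ∧ (t = true → Even (U p)) ∧ (t = false → Odd (U p))) ∨
        (t = false ∧ ((p a = none ∧ p b ≠ none) ∨ (p a ≠ none ∧ p b = none)))) → False := by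
    intro t p h
    induction h with
    | finished t p hfull h =>
      rintro (⟨h1, h2⟩ | ⟨h1, _⟩ | ⟨_, ⟨h1, _⟩ | ⟨_, h1⟩⟩)
      · obtain ⟨d, hd⟩ := Option.ne_none_iff_exists'.mp h1
        have hex : ∃ c : Fin k, c ≠ d := by
          by_cases h0 : d = ⟨0, by omega⟩
          · exact ⟨⟨1, by omega⟩, by rw [h0]; simp⟩
          · exact ⟨⟨0, by omega⟩, fun h => h0 h.symm⟩
        obtain ⟨c, hc⟩ := hex
        obtain ⟨y, hy, hyc⟩ := h c a
        have : p y = some d := by
          rcases hy with rfl | hy
          · exact hd
          · rw [ha y hy, ← h2]; exact hd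
        rw [this] at hyc
        exact hc (Option.some_injective _ hyc).symm
      · exact hfull _ h1
      · exact hfull _ h1
      · exact hfull _ h1
    | alice p v c hv _ ih =>
      rintro (⟨h1, h2⟩ | ⟨h1, h2, h3, _⟩ | ⟨h1, _⟩)
      · apply ih
        left
        have hva : v ≠ a := by rintro rfl; exact h1 hv
        have hvb : v ≠ b := by rintro rfl; exact h1 (h2.trans hv)
        rw [Function.update_of_ne hva.symm, Function.update_of_ne hvb.symm]
        exact ⟨h1, h2⟩
      · apply ih
        by_cases hva : v = a
        · subst hva
          right; right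
          refine ⟨rfl, Or.inr ⟨by simp, ?_⟩⟩
          rw [Function.update_of_ne hab.symm]; exact h2
        · by_cases hvb : v = b
          · subst hvb
            right; right
            refine ⟨rfl, Or.inl ⟨?_, by simp⟩⟩
            rw [Function.update_of_ne hab]; exact h1
          · right; left
            rw [Function.update_of_ne (Ne.symm hva), Function.update_of_ne (Ne.symm hvb)]
            refine ⟨h1, h2, by simp, fun _ => ?_⟩
            have e := hU p v c hva hvb hv
            have := h3 rfl
            rw [← e] at this
            rw [Nat.even_add_one] at this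
            exact Nat.not_even_iff_odd.1 this
      · exact absurd h1 (by decide)
    | bob p hopen _ ih =>
      rintro (⟨h1, h2⟩ | ⟨h1, h2, _, h3⟩ | ⟨_, ⟨h1, h2⟩ | ⟨h1, h2⟩⟩)
      · obtain ⟨v, hv⟩ := hopen
        apply ih v ⟨0, by omega⟩ hv
        left
        have hva : v ≠ a := by rintro rfl; exact h1 hv
        have hvb : v ≠ b := by rintro rfl; exact h1 (h2.trans hv)
        rw [Function.update_of_ne hva.symm, Function.update_of_ne hvb.symm]
        exact ⟨h1, h2⟩
      · have hodd := h3 rfl
        have hpos : 0 < U p := hodd.pos
        obtain ⟨v, hv⟩ := Finset.card_pos.1 hpos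
        rw [Finset.mem_filter] at hv
        obtain ⟨_, hva, hvb, hv⟩ := hv
        apply ih v ⟨0, by omega⟩ hv
        right; left
        rw [Function.update_of_ne hva.symm, Function.update_of_ne hvb.symm]
        refine ⟨h1, h2, fun _ => ?_, by simp⟩
        have e := hU p v ⟨0, by omega⟩ hva hvb hv
        rw [← e] at hodd
        rw [Nat.odd_add_one] at hodd
        exact Nat.not_odd_iff_even.1 hodd
      · obtain ⟨d, hd⟩ := Option.ne_none_iff_exists'.mp h2
        apply ih a d h1
        left
        rw [Function.update_self, Function.update_of_ne hab.symm, hd]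
        exact ⟨by simp, rfl⟩
      · obtain ⟨d, hd⟩ := Option.ne_none_iff_exists'.mp h1
        apply ih b d h2
        left
        rw [Function.update_self, Function.update_of_ne hab, hd]
        exact ⟨by simp, rfl⟩
  intro h
  refine key true _ h (Or.inr (Or.inl ⟨rfl, rfl, fun _ => ?_, by simp⟩))
  simpa [U] using heven

lemma number_eq [Nonempty V] (H : SimpleGraph V) (b : Bool) (k : ℕ) (hk : 1 ≤ k)
    (h1 : AliceWins H b k) (h2 : ¬ AliceWins H b (k + 1)) : gameDomaticNumber H b = k := by
  have h := (result H b).2 inferInstance
  have a := (h k hk).1 h1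
  have c := mt (h (k + 1) (by omega)).2 h2
  omega

end general

/-! ### The complete bipartite graph with three colours -/

/-- `K_{3,3}` -/
abbrev K33 : SimpleGraph (Fin 3 ⊕ Fin 3) := completeBipartiteGraph (Fin 3) (Fin 3)

instance : DecidableRel K33.Adj := fun x y => by
  unfold K33
  simp only [completeBipartiteGraph_adj]
  infer_instance

/-- Bob wins both games on `K_{3,3}` with three colours: he gives two vertices on the same side the
same colour. -/
lemma K33_three (t : Bool) : ¬ AliceWins K33 t 3 := by
  let side : Fin 3 ⊕ Fin 3 → Bool := fun x => x.isLeft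
  have hthird : ∀ x v : Fin 3 ⊕ Fin 3, ∃ w, side w = side x ∧ w ≠ x ∧ w ≠ v := by decide
  let Bad : Position (Fin 3 ⊕ Fin 3) 3 → Prop := fun p =>
    ∃ u v, u ≠ v ∧ side u = side v ∧ p u ≠ none ∧ p u = p v
  let Half : Position (Fin 3 ⊕ Fin 3) 3 → Prop := fun p =>
    ∃ u v, side u = side v ∧ p u ≠ none ∧ p v = none
  have hbad : ∀ p v c, Bad p → p v = none → Bad (Function.update p v (some c)) := by
    rintro p v c ⟨x, y, hxy, hs, h1, h2⟩ hv
    have hvx : x ≠ v := by rintro rfl; exact h1 hv
    have hvy : y ≠ v := by rintro rfl; exact h1 (h2.trans hv)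
    refine ⟨x, y, hxy, hs, ?_, ?_⟩
    · rw [Function.update_of_ne hvx]; exact h1
    · rw [Function.update_of_ne hvx, Function.update_of_ne hvy]; exact h2
  have key : ∀ (t : Bool) (p : Position (Fin 3 ⊕ Fin 3) 3), AliceWinsFrom K33 t p →
      (Bad p ∨ (t = false ∧ Half p) ∨ (∀ v, p v = none) ∨
        (t = true ∧ ∃ x, p x ≠ none ∧ ∀ y, y ≠ x → p y = none)) → False := by
    intro t p h
    induction h with
    | finished t p hfull h =>
      rintro (⟨x, y, hxy, hs, h1, h2⟩ | ⟨_, u, v, _, _, h1⟩ | h1 | ⟨_, x, _, h1⟩)
      · -- the colours as a function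
        have hex : ∀ z, ∃ d, p z = some d := fun z => Option.ne_none_iff_exists'.mp (hfull z)
        choose q hq using hex
        have hq2 : q x = q y := by
          rw [hq, hq] at h2
          exact Option.some_injective _ h2
        have hdom : ∀ (c : Fin 3) (z : Fin 3 ⊕ Fin 3), ∃ w, (w = z ∨ K33.Adj z w) ∧ q w = c := by
          intro c z
          obtain ⟨w, hw, hc⟩ := h c z
          rw [hq] at hc
          exact ⟨w, hw, Option.some_injective _ hc⟩
        clear h h1 h2 hfull hbad
        have hq' : q = Sum.elim (fun i => q (.inl i)) (fun i => q (.inr i)) := by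
          funext z; cases z <;> rfl
        generalize (fun i => q (.inl i)) = f at hq'
        generalize (fun i => q (.inr i)) = g at hq'
        subst hq'
        clear hq
        revert f g x y
        decide +kernel
      · exact hfull _ h1
      · exact hfull (.inl 0) (h1 _)
      · obtain ⟨w, _, hw, _⟩ := hthird x x
        exact hfull w (h1 w hw)
    | alice p v c hv _ ih =>
      rintro (h1 | ⟨h1, _⟩ | h1 | ⟨_, x, hx, h1⟩)
      · exact ih (Or.inl (hbad p v c h1 hv))
      · exact absurd h1 (by decide)
      · apply ih
        right; left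
        obtain ⟨w, hw1, hw2, _⟩ := hthird v v
        exact ⟨rfl, v, w, hw1.symm, by simp, by rw [Function.update_of_ne hw2]; exact h1 w⟩
      · apply ih
        right; left
        have hvx : x ≠ v := by rintro rfl; exact hx hv
        obtain ⟨w, hw1, hw2, hw3⟩ := hthird x v
        exact ⟨rfl, x, w, hw1.symm, by rw [Function.update_of_ne hvx]; exact hx,
          by rw [Function.update_of_ne hw3]; exact h1 w hw2⟩
    | bob p hopen _ ih =>
      rintro (h1 | ⟨_, u, v, hs, h1, h2⟩ | h1 | ⟨h1, _⟩)
      · obtain ⟨v, hv⟩ := hopen
        exact ih v 0 hv (Or.inl (hbad p v 0 h1 hv))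
      · obtain ⟨d, hd⟩ := Option.ne_none_iff_exists'.mp h1
        have huv : u ≠ v := by rintro rfl; exact h1 h2
        apply ih v d h2
        left
        exact ⟨u, v, huv, hs, by rw [Function.update_of_ne huv]; exact h1,
          by rw [Function.update_of_ne huv, Function.update_self, hd]⟩
      · apply ih (.inl 0) 0 (h1 _)
        right; right; right
        exact ⟨rfl, .inl 0, by simp, fun y hy => by rw [Function.update_of_ne hy]; exact h1 y⟩
      · exact absurd h1 (by decide)
  exact fun h => key t _ h (Or.inr (Or.inr (Or.inl (fun _ => rfl))))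

/-! ### The six graphs -/

/-- `K_2` -/
abbrev K2 : SimpleGraph (Fin 2) := ⊤
/-- `K_3` -/
abbrev K3 : SimpleGraph (Fin 3) := ⊤

instance {V W : Type} (G : SimpleGraph V) (H : SimpleGraph W) [DecidableRel G.Adj]
    [DecidableRel H.Adj] : DecidableRel (G ⊕g H).Adj := fun x y =>
  match x, y with
  | .inl a, .inl b => decidable_of_iff (G.Adj a b) SimpleGraph.sum_adj_inl.symm
  | .inr a, .inr b => decidable_of_iff (H.Adj a b) SimpleGraph.sum_adj_inr.symm
  | .inl _, .inr _ => isFalse (by simp)
  | .inr _, .inl _ => isFalse (by simp)

lemma one_wins {V : Type} [DecidableEq V] [Fintype V] (H : SimpleGraph V) (b : Bool) :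
    AliceWins H b 1 := wins_one H _ b _ rfl

lemma K2_true : gameDomaticNumber K2 true = 1 :=
  number_eq _ _ 1 le_rfl (one_wins _ _) (by rw [wins_iff_solve]; decide +kernel)

lemma K2_false : gameDomaticNumber K2 false = 2 :=
  number_eq _ _ 2 (by norm_num) (by rw [wins_iff_solve]; decide +kernel)
    (fun h => by
      have := le_closed (by norm_num) K2 false h 0 Finset.univ (fun y _ => Finset.mem_univ y)
      simp at this)

lemma K3_two (b : Bool) : gameDomaticNumber K3 b = 2 :=
  number_eq _ _ 2 (by norm_num) (by rw [wins_iff_solve]; revert b; decide +kernel)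
    (by rw [wins_iff_solve]; revert b; decide +kernel)

lemma K33_two (b : Bool) : gameDomaticNumber K33 b = 2 :=
  number_eq _ _ 2 (by norm_num) (by rw [wins_iff_solve]; revert b; decide +kernel) (K33_three b)

lemma union_le {W : Type} [DecidableEq W] [Fintype W] (H : SimpleGraph W) (b : Bool) :
    ¬ AliceWins (K2 ⊕g H) b 3 := by
  intro h
  have := le_closed (by norm_num) (K2 ⊕g H) b h (.inl 0) {.inl 0, .inl 1} (fun y hy => by
    rcases hy with rfl | hy
    · simp
    · rcases y with y | y
      · rw [SimpleGraph.sum_adj_inl] at hy
        fin_cases y <;> simp at hy ⊢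
      · simp at hy)
  have h2 : ({.inl 0, .inl 1} : Finset (Fin 2 ⊕ W)).card ≤ 2 := Finset.card_le_two
  omega

lemma K2K3_true : gameDomaticNumber (K2 ⊕g K3) true = 2 :=
  number_eq _ _ 2 (by norm_num) (by rw [wins_iff_solve]; decide +kernel) (union_le _ _)

lemma K2K3_false : gameDomaticNumber (K2 ⊕g K3) false = 1 :=
  number_eq _ _ 1 le_rfl (one_wins _ _) (by rw [wins_iff_solve]; decide +kernel)

lemma K2K33_true : gameDomaticNumber (K2 ⊕g K33) true = 1 :=
  number_eq _ _ 1 le_rfl (one_wins _ _) (bob_wins_even le_rfl _ (.inl 0) (.inl 1) (by simp)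
    (fun y hy => by
      rcases y with y | y
      · rw [SimpleGraph.sum_adj_inl] at hy
        fin_cases y
        · simp at hy
        · rfl
      · simp at hy) (by decide))

lemma K2K33_false : gameDomaticNumber (K2 ⊕g K33) false = 2 :=
  number_eq _ _ 2 (by norm_num)
    (wins_matching _ (fun x => match x with
      | .inl a => .inl (1 - a)
      | .inr (.inl a) => .inr (.inr a)
      | .inr (.inr a) => .inr (.inl a)) (by decide) (by decide))
    (union_le _ _)

/-- There is no function `f` of four variables with
`γ(G ∪ H) = f(γ_A(G), γ_B(G), γ_A(H), γ_B(H))` for all finite nonempty graphs `G`, `H`, neither when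
`γ` is the game domatic number `γ_A` (Alice moves first) nor when it is the delayed game domatic
number `γ_B` (Bob moves first). Here `G ⊕g H` is the disjoint union. -/
theorem result :
    (¬ ∃ f : ℕ → ℕ → ℕ → ℕ → ℕ, ∀ (V W : Type) [Fintype V] [DecidableEq V] [Nonempty V]
      [Fintype W] [DecidableEq W] [Nonempty W] (G : SimpleGraph V) (H : SimpleGraph W),
      gameDomaticNumber (G ⊕g H) true =
        f (gameDomaticNumber G true) (gameDomaticNumber G false)
          (gameDomaticNumber H true) (gameDomaticNumber H false)) ∧
    (¬ ∃ f : ℕ → ℕ → ℕ → ℕ → ℕ, ∀ (V W : Type) [Fintype V] [DecidableEq V] [Nonempty V]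
      [Fintype W] [DecidableEq W] [Nonempty W] (G : SimpleGraph V) (H : SimpleGraph W),
      gameDomaticNumber (G ⊕g H) false =
        f (gameDomaticNumber G true) (gameDomaticNumber G false)
          (gameDomaticNumber H true) (gameDomaticNumber H false)) := by
  constructor
  · rintro ⟨f, hf⟩
    have h1 := hf _ _ K2 K3
    have h2 := hf _ _ K2 K33
    rw [K2K3_true, K2_true, K2_false, K3_two, K3_two] at h1
    rw [K2K33_true, K2_true, K2_false, K33_two, K33_two, ← h1] at h2
    omega
  · rintro ⟨f, hf⟩
    have h1 := hf _ _ K2 K3
    have h2 := hf _ _ K2 K33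
    rw [K2K3_false, K2_true, K2_false, K3_two, K3_two] at h1
    rw [K2K33_false, K2_true, K2_false, K33_two, K33_two, ← h1] at h2
    omega

end Pool.Agent.Results.MP_2ce84e_co.NoFormula
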